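import Pool.Agent.U192.NM.Cp
import Pool.Agent.TH466.QG.Low

/-!
# The conjecture of Campana and Peternell for the varieties dominated by fibre spaces over a base with a positive canonical bundle

Let `g : V → B` be a fibre space of projective varieties over `ℂ`, `dim B = d`, whose geometric
generic fibre `F` has dimension `r + 1 ≥ 1` and numerical dimension `ν(F) ≤ 0` (for instance an abelian
variety, a Calabi-Yau or a hyperkähler manifold). Let `f i : B ⇢ ℙ^{N i}`, `i < k`, be rational maps
such that `B` is mapped birationally into the product of the projective spaces, and let `H i` be the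
pull-back of a hyperplane to (a model of) `V`. Let `V ⇢ W` be a dominant rational map of finite degree
to any variety `W`; it need not be related to the fibration, and it need not be a Galois cover. Let
`W_i` be the image of `V` in `W × ℙ^{N 0} × ... × ℙ^{N (i - 1)}` and let `δ i` be the degree of
`W_{i + 1}` over `W_i`.

Suppose that the Iitaka dimension of `K_V - R_g - 2 ∑ (δ i - 1) H i` is at least `d = dim B`, where
`R_g` is the divisor with the multiplicity `c - 1` at the prime divisors over `V` along which all
functions on `B` have orders divisible by `c` (the multiple fibres of `g`).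

Then the conjecture of Campana and Peternell holds for all projective manifolds `X` which are birational
to `W` and for all divisors on them: if `q K_X - A` is pseudo-effective, `q ≥ 1`, then `κ(X) ≥ κ(A)`. (Here
pseudo-effective means that for some divisor `H` all `j (q K_X - A) + H` have sections, which is
Nakayama's criterion for pseudo-effectivity.) Positivity is only needed on the base of the covering
fibre space `V`; nothing is assumed on `W`, on the divisor `A` and on the fibres except `ν(F) ≤ 0`.

Proof. Either `m K_X + H` has no sections for large `m`, for all `H`; then no multiple of `A` has a section.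
Or `κ(X) = ν(X) = d`: a suitable multiple of the norm of a pluricanonical form `θ` on `V`, times a
function on `B`, is a regular pluricanonical form on `W`, because the poles which come from the
ramification of `V ⇢ W` are compensated by the zeros of `θ` and the ones of the discriminant of a
basis of the function field of the image of `V` in `W × B` over the one of `W`, if the base is not
constant along the ramification divisor, and because `θ` vanishes along the ramification divisors which
are mapped onto `B`, as `ν(F) ≤ 0` and `ν(X) ≠ -∞`; and these norms have `d` algebraically independent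
ratios. Then the growth of the sections of the multiples of `A` is bounded by `ν(X) = κ(X)`.
-/

set_option autoImplicit false
set_option linter.overlappingInstances false

open FF Module Pool.Agent.W602.GT
open Pool.Agent.W619.TW (NumLe IsPsefRest DivKodGe)

namespace Pool.Agent.Results.MP_370cf3_ag.FibreSpaceImages

/-- The order of the poles along `Q` of the functions in the finite set `Y`: the multiplicity along `Q`
of the pull-back of a hyperplane under the rational map with the coordinates `1` and `Y`. -/
noncomputable def poleOrder {L : Type} [Field L] [Algebra ℂ L] (Y : Finset L) (Q : Place ℂ L) : ℕ :=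
  Y.sup fun z => (-Q.ord z).toNat

/-- The function field of the image `W_j` of `V` in the product of `W` and the first `j` projective
spaces. `K` and `L` are the function fields of `W` and `V`, and `X i` is the set of the affine
coordinates of the `i`-th rational map. -/
def Img {L : Type} [Field L] (K : Type) [Field K] [Algebra K L] {k : ℕ} (X : Fin k → Finset L)
    (j : ℕ) : IntermediateField K L :=
  IntermediateField.adjoin K {z | ∃ i : Fin k, i.val < j ∧ z ∈ X i}

/-- The degree `δ i` of `W_{i + 1}` over `W_i`. -/
noncomputable def deg {L : Type} [Field L] (K : Type) [Field K] [Algebra K L] {k : ℕ}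
    (X : Fin k → Finset L) (i : Fin k) : ℕ :=
  finrank (Img K X i) (IntermediateField.adjoin (Img K X i) (X i : Set L))

/-- `θ` is a section of `m (K_V - R_g) - H`, where `L` is the function field of `V`, of dimension `n`,
`E` the one of the base, and `H` has the multiplicity `b Q` at `Q`: the `m`-canonical form `θ` is
regular at all prime divisors `Q` over `V`, and if the base is not constant along `Q` then the order
of `θ` along `Q` is at least `m (c - 1) + b Q` for all common divisors `c` of the orders of the
functions on the base along `Q`. -/
def IsPositive {L : Type} [Field L] [Algebra ℂ L] (E : IntermediateField ℂ L) (n m : ℕ)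
    (b : Place ℂ L → ℤ) (θ : (Fin n → Derivation ℂ L L) → L) : Prop :=
  IsPluri m θ ∧ ∀ Q : Place ℂ L, Divisorial n Q → ∀ G : Fin n → Derivation ℂ L L,
    (∀ i, DerReg Q (G i)) → θ G ≠ 0 → 0 ≤ Q.ord (θ G) ∧
      ∀ c : ℕ, (∃ z ∈ E, Q.ord z ≠ 0) → (∀ z ∈ E, (c : ℤ) ∣ Q.ord z) →
        (m : ℤ) * (c - 1) + b Q ≤ Q.ord (θ G)

/-- **The conjecture of Campana and Peternell for images of fibre spaces.** Let `L` be the function
field of a variety `V` of dimension `d + (r + 1)` and `E` the one of the base `B` of a fibration of
`V`, i.e. `E` is algebraically closed in `L` and generated by the finitely many coordinates in the sets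
`X i`, and its transcendence degree is `d`. Let `Λ` be an algebraic extension of `E` (for instance the
algebraic closure), and let `F` be the function field over `Λ` of the generic fibre, of numerical
dimension at most `0`. Let `K ⊆ L` be the function field of a variety `W`, the extension being finite.
Suppose that there are sections `θ 0, ..., θ d` of `m (K_V - R_g - 2 ∑ (δ i - 1) H i)` whose ratios are
algebraically independent. Let `A` be a divisor on a projective manifold which is birational to `W`,
with the multiplicities `a P`, such that `q K_W - A` is pseudo-effective for some `q ≥ 1`. Then the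
Kodaira dimension of `W` is at least the Iitaka dimension of `A`. -/
theorem result {L Λ F : Type} [Field L] [Field Λ] [Field F] [Algebra ℂ L]
    [Algebra.EssFiniteType ℂ L] (E : IntermediateField ℂ L) [Algebra E Λ] [Algebra Λ F]
    [Algebra L F] [IsScalarTower E Λ F] [IsScalarTower E L F] [Algebra ℂ Λ] [Algebra ℂ F]
    [IsScalarTower ℂ Λ F] [IsScalarTower ℂ L F] [IsScalarTower ℂ E Λ]
    [Algebra.IsAlgebraic E Λ] {d r m k : ℕ} (hE : Algebra.trdeg ℂ E = d)
    (hL : Algebra.trdeg ℂ L = (d + (r + 1) : ℕ)) (hcl : ∀ z : L, IsAlgebraic E z → z ∈ E)
    (hF : IntermediateField.adjoin Λ (Set.range (algebraMap L F)) = ⊤)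
    (hnum : NumLe Λ F (r + 1) (fun _ => False) 0)
    (X : Fin k → Finset L) (hX : IntermediateField.adjoin ℂ (⋃ i, (X i : Set L)) = E)
    (K : Type) [Field K] [Algebra ℂ K] [Algebra K L] [IsScalarTower ℂ K L] [FiniteDimensional K L]
    (hm : 1 ≤ m) (θ : Fin (d + 1) → (Fin (d + (r + 1)) → Derivation ℂ L L) → L)
    (hθ : ∀ j, IsPositive E (d + (r + 1)) m
      (fun Q => ∑ i, 2 * m * ((deg K X i : ℤ) - 1) * poleOrder (X i) Q) (θ j))
    (D : Fin (d + (r + 1)) → Derivation ℂ L L) (hD : θ 0 D ≠ 0)
    (hind : AlgebraicIndependent ℂ fun j : Fin d => θ j.succ D / θ 0 D)
    (q : ℕ) (hq : 1 ≤ q) (a : Place ℂ K → ℤ)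
    (hps : IsPsefRest ℂ K (d + (r + 1)) (fun _ => False) q a) (h : ℕ)
    (hA : DivKodGe ℂ K (d + (r + 1)) a h) :
    Pool.Agent.W619.TW.KodGe ℂ K (d + (r + 1)) (fun _ => False) h := by
  have hK : Algebra.EssFiniteType ℂ K := Pool.Agent.TH466.QG.ess_below (K := L)
  obtain ⟨h1, h2⟩ := U192.NM.abu (Λ := Λ) (F := F) E hm hE hL hF hcl hnum X hX
    (fun j => (hθ j).1) (fun j => (hθ j).2) (K := K) hD hind
  refine U192.NM.cp_of_abu (Pool.Agent.Y184.NT.trdeg_below (K := L) hL) ?_ h2 hq hps hA
  by_cases h3 : Pool.Agent.W619.TW.NumNeg ℂ K (d + (r + 1)) (fun _ => False)
  · exact Or.inl h3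
  · exact Or.inr ((h1.out 0 2).1 h3)

end Pool.Agent.Results.MP_370cf3_ag.FibreSpaceImages
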