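import Pool.Agent.U976.TBd.CP4

/-!
# The conjecture of Campana and Peternell for pairs on Kummer covers of toric bundles over torus quotients

Let `X = V / Γ` be the quotient of a complex torus (an abelian variety if `X` is projective) of any
dimension by any finite group, which may contain reflections, so that `K_X` may be negative. Let
`Y → X` be a toric bundle: all fibres are the same smooth complete toric variety, and the twists `c i`
are arbitrary line bundles on `X`. Let `F_j` be a section of the `m_j`-th power of the line bundle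
`O_Y(e_j; A_j)` on `Y`, let `Y'` be the Kummer cover of `Y` with the equations `y_j ^ m_j = F_j` (it may
be singular), and let `Δ ≥ 0` be the `ℚ`-divisor `(1 / p) π^* div B` on `Y'`, where `B` is a section of a
line bundle `O_Y(b; M)`. We assume that `(Y', Δ)` is log canonical (for instance `Y'` smooth and
`Δ = 0`), or only that the torus invariant prime divisors over the general fibre of `Y → X` have
discrepancy at least `-1` for the pair `(Y, ∑ (1 - 1 / m_j) div F_j + (1 / p) div B)`, whose pullback to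
`Y'` is `K_{Y'} + Δ`.

**Theorem.** Let `t p (K_{Y'} + Δ)`, `t ≥ 1`, be numerically equivalent to `P + Q`, where `P` and `Q` are
pullbacks to `Y'` of line bundles on `Y`, `κ(P) ≥ 0` and `Q` is pseudo-effective (it has a singular
hermitian metric with semipositive curvature current). Then `κ(K_{Y'} + Δ) ≥ κ(P)`, and
`N p (K_{Y'} + Δ) ∼ w P + E` for some `N, w ≥ 1` and an effective divisor `E`, which comes from `Y`.

For `Δ = 0` this is the inequality of Campana and Peternell for `Y'`. For all line bundles `P` and `Q` on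
`Y'` it follows if it is applied to the sums of the conjugates of `P` and of `Q` under the group of
`Y' → Y` (this step is not formalized).

`IsTorusQuotient` and `LineBundle` are defined in `Pool.Agent.W594.SYZ.Defs2`; `IsChernForm` in
`Pool.Agent.W594.SYZ.TQDefs`; `IsRamification` in `Pool.Agent.TH735.AQ.MirDefs`; `IsSmoothFan`,
`LinEquiv` and `IsSection` in `Pool.Agent.Q47.TB.Defs`; `IsCoverSection` and `canClass` in
`Pool.Agent.U976.TBd.K1`; `IsLogPsh`, `CoverSet`, `IsCoverMetric` and `CoverCurrentPsef` in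
`Pool.Agent.U976.TBd.CUDefs`; `IsCoverAdjoint`, `adjClass` and `CoverLC` in
`Pool.Agent.U976.TBd.KPDefs`; `IsCoverPoly` and `IitakaGE` in `Pool.Agent.U976.TBd.CPDefs`.
-/

set_option autoImplicit false

namespace Pool.Agent.Results.MP_370cf3_ag.KummerPairs

open Pool.Agent.W594.SYZ2 Pool.Agent.TH735.AQ Q47.TB Pool.Agent.U976.TBd MvPolynomial

/-- Let `p (K_{Y'} + Δ)` be the pullback to `Y'` of the line bundle `O_Y(D; L)`, `D = adjClass e m p b`,
where `H` is the Chern form of `L`, and let `P = O_Y(dP; LP)` and `Q = O_Y(dQ; LQ)` be line bundles on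
`Y` with `P ⊗ Q` numerically equivalent to `O_Y(t D; L ^ t)`, `t ≥ 1`: `dP + dQ ∼ t D` and
`HP + HQ = t H` for the Chern forms. Let the pullback of `Q` to `Y'` have a singular hermitian metric
with semipositive curvature current, and let the Iitaka dimension of the pullback of `P` to `Y'` be at
least `r`, `r ≥ 0`. Then the Iitaka dimension of `K_{Y'} + Δ` is at least `r`, and for some `N, w ≥ 1` the
line bundle `O_Y(N D - w dP; L ^ N ⊗ LP ^ (-w))` has a nonzero section on `Y`. -/
theorem result {V : Type*} [NormedAddCommGroup V] [NormedSpace ℂ V] [FiniteDimensional ℂ V]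
    (Γ : Subgroup (V ≃ᵃ[ℂ] V)) (hΓ : IsTorusQuotient Γ) (ρ : V → ℂ) (hρ : IsRamification Γ ρ)
    {ι : Type*} [Fintype ι] {n : ℕ} (u : ι → Fin n → ℤ) (S : Set (Set ι)) (hS : IsSmoothFan u S)
    (c : ι → LineBundle Γ) (Hc : ι → V → V → ℂ) (hc : ∀ i, IsChernForm (c i) (Hc i))
    {k : ℕ} (m : Fin k → ℕ) (hm : ∀ j, 1 ≤ m j) (e : Fin k → ι → ℤ) (A : Fin k → LineBundle Γ)
    (F : Fin k → V → MvPolynomial ι ℂ)
    (hF : ∀ j, IsSection u c (fun i => m j * e j i) (fun γ v => (A j).e γ v ^ m j) (F j))
    (p : ℕ) (b : ι → ℤ) (M : LineBundle Γ) (B : V → MvPolynomial ι ℂ) (hB : IsSection u c b M.e B)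
    (hlc : CoverLC S m p F B) (L : LineBundle Γ) (hL : IsCoverAdjoint c A m p ρ M L)
    (H : V → V → ℂ) (hH : IsChernForm L H)
    (dP dQ : ι → ℤ) (LP LQ : LineBundle Γ) (HP HQ : V → V → ℂ) (hP : IsChernForm LP HP)
    (hQ : IsChernForm LQ HQ) (t : ℕ) (ht : 1 ≤ t)
    (hd : LinEquiv u (fun i => dP i + dQ i) (fun i => t * adjClass e m p b i))
    (hn : ∀ v : V, (HP v v).re + (HQ v v).re = t * (H v v).re)
    (hQp : CoverCurrentPsef u S c e A m F dQ LQ)
    (r : ℕ) (hr : IitakaGE u S c e A m F dP LP r) :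
    IitakaGE u S c e A m F (adjClass e m p b) L r ∧
    ∃ N w : ℕ, 1 ≤ N ∧ 1 ≤ w ∧ ∃ G : V → MvPolynomial ι ℂ,
      IsSection u c (fun i => N * adjClass e m p b i - w * dP i)
        (fun γ v => L.e γ v ^ N * (LP.e γ v ^ w)⁻¹) G ∧ ∃ v, G v ≠ 0 :=
  cp_main hΓ hρ hS hc hm hF hH (total_pair_bd hF hB hL) (fun i => adjClass_eq hm p b i) hlc hP hQ
    ht hd hn hQp hr

end Pool.Agent.Results.MP_370cf3_ag.KummerPairs
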