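import Pool.Agent.U189.MG.Ext

/-!
# The Campana-Peternell conjecture for the toroidal models of covers branched along normal crossing
# hypersurfaces

**The varieties.** Let `F k`, `k = 0, ..., n`, be forms of degrees `d k` in `n + 1` variables whose
zero sets in the projective `n`-space are smooth hypersurfaces with normal crossings, `Y` a normal
abelian cover of the projective space which is branched only along these hypersurfaces, and `X` the
toroidal modification of `Y` which is given by `fan`, for instance a toroidal resolution of `Y` (see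
`Pool/Agent/U189/ND/Defs.lean`, where the definitions `NormalCrossings`, `Admissible`, `InCone`, `IsFan`,
`affine`, `minimalOrder`, `multiplicities` and `coefficient` are explained). `D 1, ..., D p` are toroidal
`ℚ`-Cartier divisors on `X`; the coefficients of their pullbacks at the prime divisors `P` over `X` are the
`δ i P`.

**The canonical class.** The canonical class of `X` is toroidal: `K_X` plus the reduced boundary of `X` is
`∑ k, d k - (n + 1)` times the hyperplane class. If `n ≥ 3`, if every generator of a ray has at most `n - 1`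
positive coordinates and if the `D i` generate the toroidal divisors of a `ℚ`-factorial (for instance
smooth) `X`, then ALL `ℚ`-divisors on `X` are `ℚ`-linearly equivalent to rational combinations of the
`D i` (Lefschetz; this remark is not used and not proved here).

**The theorem.** Let `α` and `b` be rational combinations of the `D i` such that `b` is pseudo-effective
(`IsPseudoeffectiveUpTo`, the usual notion: with an arbitrary divisor `A` on a model of `X`). Then
`κ(α + b) ≥ κ(α)`; moreover a positive multiple of `b` is effective. For `K_X ~ A + B` with the classes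
`α` of `A` and `b` of `B` this is the statement of the conjecture of Campana and Peternell,
`κ(X) ≥ κ(A)`, for all these `X` and all `A`, `B`. There is no condition on the degrees, so the Kodaira
dimension of `X` can be `-∞`, `0`, `n` or any number in between, and `B` need not be nef or big. The
same holds for pairs, `K_X + Δ ~ A + B`.

`KodairaGE r`: some positive multiple has sections `f 0, ..., f r` such that `f 1 / f 0, ..., f r / f 0`
are algebraically independent, that is `κ ≥ r`.

**Proof.** The Cox ring of the `D i` together with the hyperplane class is finitely generated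
(`Pool/Agent/U189/NF`), and finite sets of functions are bounded by multiples of the hyperplane class, so
that pseudo-effective rational combinations have a multiple with a section (`Pool/Agent/U189/MG`). This
uses the hypothesis on `B` only; the result on the pseudo-effective cone with real coefficients is
`MP_66b48b_ag.NormalCrossingReal`.
-/

set_option autoImplicit false

open FF MvPolynomial Pool.Agent.W602.GT

namespace Pool.Agent.Results.MP_370cf3_ag.NormalCrossingModels

open Pool.Agent.Results.MP_89a3f8_ag.TerminationOfFlips (IsSection)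
open Pool.Agent.U189.ND Pool.Agent.U189.MG

section defs

variable {K : Type} [Field K] [Algebra ℂ K] {p : ℕ} (N : ℕ) (δ : Fin p → Place ℂ K → ℚ)

/-- The Iitaka dimension of the rational combination `∑ i, α i * D i` is at least `r`: a positive
multiple is integral and has sections `f 0, ..., f r`, `f 0 ≠ 0`, such that the quotients `f i / f 0`,
`1 ≤ i ≤ r`, are algebraically independent. -/
def KodairaGE (r : ℕ) (α : Fin p → ℚ) : Prop :=
  ∃ k : ℕ, 1 ≤ k ∧ ∃ ν : Fin p → ℤ, (∀ i, (k : ℚ) * α i = ν i) ∧
    ∃ f : Fin (r + 1) → K, (∀ l, IsSection N δ ν (f l)) ∧ f 0 ≠ 0 ∧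
      AlgebraicIndependent ℂ fun l : Fin r => f l.succ / f 0

end defs

/-- **The Campana-Peternell conjecture.** Let `K` be the function field of an abelian cover `Y` of the
projective `n`-space which is branched along `n + 1` hypersurfaces `F k = 0` with normal crossings, `X` the
toroidal modification of `Y` which is given by `fan`, and `D i`, `i < p`, toroidal `ℚ`-Cartier divisors on
`X` with the degrees `β i` and the coefficients `c i`. If the rational combination `b` is pseudo-effective
then a positive multiple of `b` is effective, and the Iitaka dimension of `α + b` is at least that of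
`α` for all rational combinations `α`. -/
theorem result (n R p : ℕ) (hn : 1 ≤ n) (d : Fin (n + 1) → ℕ) (hd : ∀ k, 1 ≤ d k)
    (F : Fin (n + 1) → MvPolynomial (Fin (n + 1)) ℂ) (hF : ∀ k, (F k).IsHomogeneous (d k))
    (hs : NormalCrossings F) (m : Fin R → ℕ) (hm : ∀ j, 1 ≤ m j) (a : Fin R → Fin (n + 1) → ℕ)
    (hdiv : ∀ j, m j ∣ ∑ k, a j k * d k)
    (K : Type) [Field K] [Algebra ℂ K] (x : Fin (n + 1) → K) (hx0 : x 0 ≠ 0)
    (hbas : IsTranscendenceBasis ℂ (affine x)) (z : Fin R → K)
    (hz : ∀ j, z j ^ m j = ∏ k, (aeval x (F k) / x 0 ^ d k) ^ a j k)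
    (hgen : IntermediateField.adjoin ℂ (Set.range (affine x) ∪ Set.range z) = ⊤)
    (fan : Finset (Finset (Fin (n + 1) → ℕ))) (hfan : IsFan m a fan)
    (c : Fin p → (Fin (n + 1) → ℕ) → ℚ) (hc0 : ∀ i, c i 0 = 0) (β : Fin p → ℤ)
    (u : Finset (Fin (n + 1) → ℕ) → Fin p → Fin (n + 1) → ℚ)
    (hlin : ∀ σ ∈ fan, ∀ i v, Admissible m a v → InCone σ v → - c i v = ∑ k, u σ i k * v k)
    (δ : Fin p → Place ℂ K → ℚ) (hδ : ∀ i P, δ i P = coefficient F d x (c i) (β i) P)
    (b : Fin p → ℚ) (hb : IsPseudoeffectiveUpTo n δ fun i => (b i : ℝ)) :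
    (∃ k : ℕ, 1 ≤ k ∧ ∃ ν : Fin p → ℤ, (∀ i, (k : ℚ) * b i = ν i) ∧
      ∃ s : K, s ≠ 0 ∧ IsSection n δ ν s) ∧
    ∀ (α : Fin p → ℚ) (r : ℕ), KodairaGE n δ r α → KodairaGE n δ r (fun i => α i + b i) := by
  have h := eff_of_psef hx0 hbas (cox_ext n R p hn d hd F hF hs m hm a hdiv K x hx0 hbas z hz
    hgen fan hfan c hc0 β u hlin δ hδ) hb
  refine ⟨h, fun α r hα => ?_⟩
  obtain ⟨k', hk', νb, hνb, s, hs0, hss⟩ := h
  obtain ⟨k, hk, ν, hν, f, hf, hf0, hind⟩ := hα
  have h1 : ∀ l, IsSection n δ ((k' - 1) • ν + ν + k • νb) (f 0 ^ (k' - 1) * f l * s ^ k) :=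
    fun l => Pool.Agent.Q57.FT.zsec_mul (Pool.Agent.Q57.FT.zsec_mul
      (Pool.Agent.Q57.FT.zsec_pow (hf 0) (k' - 1)) (hf l)) (Pool.Agent.Q57.FT.zsec_pow hss k)
  refine ⟨k * k', Nat.one_le_iff_ne_zero.2 (mul_ne_zero (by omega) (by omega)),
    (k' - 1) • ν + ν + k • νb, fun i => ?_, fun l => f 0 ^ (k' - 1) * f l * s ^ k, h1, ?_, ?_⟩
  · have e1 : (((k' - 1 : ℕ) : ℚ)) = k' - 1 := by
      rw [Nat.cast_sub hk']
      push_cast
      rfl
    rw [Pi.add_apply, Pi.add_apply, Pi.smul_apply, Pi.smul_apply, nsmul_eq_mul, nsmul_eq_mul]
    push_cast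
    rw [e1, ← hν i, ← hνb i]
    ring
  · exact mul_ne_zero (mul_ne_zero (pow_ne_zero _ hf0) hf0) (pow_ne_zero _ hs0)
  · have e2 : (fun l : Fin r => f 0 ^ (k' - 1) * f l.succ * s ^ k /
        (f 0 ^ (k' - 1) * f 0 * s ^ k)) = fun l : Fin r => f l.succ / f 0 := by
      funext l
      have h2 := pow_ne_zero (k' - 1) hf0
      have h3 := pow_ne_zero k hs0
      field_simp
    rw [e2]
    exact hind

end Pool.Agent.Results.MP_370cf3_ag.NormalCrossingModels
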