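import Pool.Agent.U192.TF.Two
import Pool.Agent.U192.NM.Cp
import Pool.Agent.R885.G10
import Pool.Agent.Y174.SD.G14

/-!
# The conjecture of Campana and Peternell for varieties dominated by the product of a variety and a curve

Let `X₁` be a projective variety over `ℂ` of dimension `d`, `C` a curve of any genus, and let
`X₁ × C ⇢ W` be a dominant rational map of finite degree. It need not be related to the product
structure, and it need not be the quotient by a group. Let `X₁ ⇢ X` be a dominant rational map of
finite degree (for instance the identity), and let `V` be the image of `X₁ × C` in `W × X`. Let `T` be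
a finite set of rational functions on `X` such that `1` and the functions in `T` generate the function
field `ℂ(V)` as a vector space over `ℂ(W)` (they separate the points of `X` below a general point of `W`),
and let `H` be the divisor of the poles of the functions in `T`.

**Theorem.** Suppose that for some `m ≥ 1` there are `a + 1` sections of `m (K_X - 2 H)` (on all models,
see `IsSection`) with algebraically independent ratios: `κ(X, K_X - 2 H) ≥ a`. Let `M` be a projective
manifold which is birational to `W`, and `A` a divisor on `M` such that `q K_M - A` is pseudo-effective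
for some `q ≥ 1`. Then

  `κ(M) ≥ min (κ(A), a)`,

and if `K_X - 2 H` is big, `a = d = dim X`, then

  `κ(M) ≥ κ(A)`,

the conjecture of Campana and Peternell. (Here pseudo-effective means that for some divisor `H'` all
`j (q K_M - A) + H'`, `j ≥ 1`, have sections, which is Nakayama's criterion for pseudo-effectivity. If
`K_M ∼ A' + B` with an effective `ℚ`-divisor `A'` and `B` pseudo-effective, take `A = q A'`.) Nothing is
assumed on `W`, on `C` and on the divisor `A`.

Proof. If `W` is uniruled then `m K_M + H'` has no sections for large `m`, for all `H'`, and no multiple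
of `A` has a section. Otherwise `κ(W) ≥ a`, and `κ(W) ≥ a + 1` or `ν(W) ≤ d` (see
`MP_c2a5fc_ag.ImagesOfProductsWithCurves`, by the same agent: norms from `V₁`, the image of `X₁ × C` in
`W × X₁`, to `W` of the products of the sections of `m (K_X - 2 H)` with traces of differentials on `C`;
if the ratios of all these traces are functions on `X₁` then the fibres of `V₁ → X₁` have genus at
most one). For `a = d` the Kodaira and the numerical dimension of `W` are equal, and the growth of the
sections of the multiples of `A` is bounded by `ν(W) = κ(W)`.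

`K` is the function field of `X₁ × C`, the compositum of the function fields `E₁` of `X₁` and `C`; `E` is
the one of `X`, `L` the one of `W`.
-/

set_option autoImplicit false
set_option linter.overlappingInstances false
set_option maxHeartbeats 4000000
set_option synthInstance.maxHeartbeats 400000

open FF Module Pool.Agent Pool.Agent.W602.GT
open Pool.Agent.W619.TW (IsPsefRest DivKodGe)

namespace Pool.Agent.Results.MP_370cf3_ag.ProductsWithCurves

/-- The order of the poles along `v` of the functions in the finite set `T`: the multiplicity at `v`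
of `H`, the smallest effective divisor with `H + (t) ≥ 0` for all `t ∈ T`, `t ≠ 0`. -/
noncomputable def poleOrder {E : Type} [Field E] [Algebra ℂ E] (T : Finset E) (v : Place ℂ E) : ℕ :=
  T.sup fun z => (-v.ord z).toNat

/-- `θ` is a section of `m (K_X - 2 H)`, where `E` is the function field of `X`, of dimension `d`, and
`H` is the divisor of the poles of the functions in `T`: an `m`-canonical form of order at least
`2 m H_v` along all prime divisors `v` over `X`. -/
def IsSection {E : Type} [Field E] [Algebra ℂ E] (d m : ℕ) (T : Finset E)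
    (θ : (Fin d → Derivation ℂ E E) → E) : Prop :=
  IsPluri m θ ∧ ∀ v : Place ℂ E, Divisorial d v → ∀ G : Fin d → Derivation ℂ E E,
    (∀ i, DerReg v (G i)) → θ G = 0 ∨ 2 * (m : ℤ) * poleOrder T v ≤ v.ord (θ G)

/-- `κ(X, K_X - 2 H) ≥ a`: for some `m ≥ 1` there are `a + 1` sections of `m (K_X - 2 H)` with
algebraically independent ratios. -/
def IsPositive {E : Type} [Field E] [Algebra ℂ E] (d a : ℕ) (T : Finset E) : Prop :=
  ∃ m : ℕ, 1 ≤ m ∧ ∃ θ : Fin (a + 1) → (Fin d → Derivation ℂ E E) → E,
    (∀ j, IsSection d m T (θ j)) ∧ ∃ G : Fin d → Derivation ℂ E E, θ 0 G ≠ 0 ∧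
      AlgebraicIndependent ℂ fun j : Fin a => θ j.succ G / θ 0 G

/-- `1` and the functions in `T` generate the field `L(E)` as a vector space over `L`. Here `K` is the
function field of `X₁ × C`, `E` the one of `X`, `L` the one of `W`, and so `L(E)` the one of the image
`V` of `X₁ × C` in `W × X`. -/
def Separates {K : Type} [Field K] [Algebra ℂ K] (L : Type) [Field L] [Algebra L K]
    (E : IntermediateField ℂ K) (T : Finset E) : Prop :=
  ∀ z ∈ IntermediateField.adjoin L (E : Set K),
    z ∈ Submodule.span L (insert 1 ((fun t : E => (t : K)) '' (T : Set E)))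

/-- `κ(W) ≥ h`: for some `m ≥ 1` there are at least `j ^ h` linearly independent regular
`j m`-canonical forms on `W`, for all `j ≥ 1`. Here `L` is the function field of `W`, of dimension `n`. -/
def KodairaGe (L : Type) [Field L] [Algebra ℂ L] (n h : ℕ) : Prop :=
  W619.TW.KodGe ℂ L n (fun _ => False) h

theorem conv {E : Type} [Field E] [Algebra ℂ E] {d m : ℕ} {T : Finset E}
    {θ : (Fin d → Derivation ℂ E E) → E} (h : IsSection d m T θ) :
    ∀ v : Place ℂ E, Divisorial d v → ∀ G : Fin d → Derivation ℂ E E,
      (∀ i, DerReg v (G i)) → θ G = 0 ∨ ∀ t : E, (t = 1 ∨ t ∈ T) → t ≠ 0 →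
        (0 : ℤ) ≤ v.ord (θ G) + 2 * m * v.ord t := by
  intro v hv G hG
  rcases h.2 v hv G hG with h1 | h1
  · exact Or.inl h1
  refine Or.inr fun t ht _ => ?_
  have h2 : -v.ord t ≤ poleOrder T v := by
    rcases ht with rfl | ht
    · rw [v.ord_one, neg_zero]
      exact Int.natCast_nonneg _
    · have h3 : (-v.ord t).toNat ≤ poleOrder T v :=
        Finset.le_sup (f := fun z => (-v.ord z).toNat) ht
      have h4 := Int.self_le_toNat (-v.ord t)
      exact h4.trans (by exact_mod_cast h3)
  have h3 := mul_le_mul_of_nonneg_left h2 (by positivity : (0 : ℤ) ≤ 2 * m)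
  linarith

/-- **The conjecture of Campana and Peternell.** Let `K` be the function field of the product of a
variety with function field `E₁`, of dimension `d`, and of a curve with function field `C`; let `E ⊆ E₁`
be a subfield of the same transcendence degree, the function field of `X`, and `L ⊆ K` the function
field of a variety `W`, the extension being finite. Let `T ⊆ E` be a finite set of functions which
separates the points of `X` below a general point of `W`, and let `κ(X, K_X - 2 H) ≥ a`. Let `A` be a
divisor on a projective manifold which is birational to `W`, with the multiplicities `α P`, such that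
`q K_W - A` is pseudo-effective for some `q ≥ 1`, and let `κ(A) ≥ h`. Then `κ(W) ≥ min (h, a)`, and
`κ(W) ≥ h` if `a = d`. -/
theorem result (K : Type) [Field K] [Algebra ℂ K] [Algebra.EssFiniteType ℂ K] (d : ℕ)
    (E E₁ C : IntermediateField ℂ K) (hE : Algebra.trdeg ℂ E = d) (hE₁ : Algebra.trdeg ℂ E₁ = d)
    (hC : Algebra.trdeg ℂ C = 1) (hK : Algebra.trdeg ℂ K = (d + 1 : ℕ)) (hEE : E ≤ E₁)
    (hsup : E₁ ⊔ C = ⊤) (L : Type) [Field L] [Algebra ℂ L] [Algebra L K] [IsScalarTower ℂ L K]
    [FiniteDimensional L K] (T : Finset E) (hT : Separates L E T) (a : ℕ)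
    (hpos : IsPositive d a T) (q : ℕ) (hq : 1 ≤ q) (α : Place ℂ L → ℤ)
    (hps : IsPsefRest ℂ L (d + 1) (fun _ => False) q α) (h : ℕ)
    (hA : DivKodGe ℂ L (d + 1) α h) :
    KodairaGe L (d + 1) (min h a) ∧ (a = d → KodairaGe L (d + 1) h) := by
  classical
  have hL : Algebra.trdeg ℂ L = (d + 1 : ℕ) := Y184.NT.trdeg_below (K := K) hK
  have hessL : Algebra.EssFiniteType ℂ L := TH466.QG.ess_below (K := K)
  have hFF : IsFF ℂ C := ⟨N999.SX.ess_any C, hC⟩
  have hset : ∀ z ∈ IntermediateField.adjoin L (E : Set K),
      z ∈ Submodule.span L {z : K | ∃ t : E, (t = 1 ∨ t ∈ T) ∧ (t : K) = z} := by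
    intro z hz
    refine Submodule.span_mono ?_ (hT z hz)
    rintro w (rfl | ⟨t, ht, rfl⟩)
    · exact ⟨1, Or.inl rfl, rfl⟩
    · exact ⟨t, Or.inr ht, rfl⟩
  have h1 := U192.TF.main (C := C) (L := L) hEE hsup hE hE₁ hK hset (BX := fun _ => False)
    (B := ∅) Set.finite_empty (BL := fun _ => False) (fun P Q e hQ => by
      constructor
      · exact fun h => h.elim
      · rintro (⟨_, _, h, -⟩ | ⟨_, h, -⟩)
        · exact h
        · exact h)
  have h2 := U192.TF.two (C := C) (L := L) hEE hsup hE hE₁ hK hset
  have hneg : ¬ W619.PL.IsA1Uniruled ℂ L (d + 1) (fun _ => False) := by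
    rintro ⟨M, i1, i2, φ, g1, g2, -⟩
    exact W619.TW.cp_of_neg (W619.Y.uniruled_neg (d + 1) hL ⟨M, i1, i2, g1, g2, ⟨φ⟩⟩).2 hq hps hA
  obtain ⟨m, hm, θ, hθ, G, hG, hind⟩ := hpos
  obtain ⟨h3, -⟩ := h1.resolve_left hneg
  have hka := h3 m a hm θ (fun j => (hθ j).1) (fun j v hv G hG => by
    rcases conv (hθ j) v hv G hG with h3 | h3
    · exact Or.inl h3
    · refine Or.inr fun t ht ht0 => ?_
      rw [if_neg id]
      exact h3 t ht ht0) G hG hind
  have htop : W619.TW.NumLe ℂ L (d + 1) (fun _ => False) (d + 1) := by
    refine Y174.SD.num_zero.1 (R885.pair_top hessL hL (δ := fun _ => 0) (G := ∅) (fun P hP => ?_)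
      (fun P => zero_le_one))
    exact absurd hP (lt_irrefl _)
  have hcp := fun b hb hn => U192.NM.cp_of_abu (d := b) hL (Or.inr hb) hn hq hps hA
  refine ⟨W619.TW.KodGe.mono (min_le_right h a)
    (W300.PG.TRGE.main.{0, 0} ℂ L (d + 1) a hL (U192.NM.kodTr_of_kod hka)), ?_⟩
  · rintro rfl
    rcases h2.resolve_left hneg with h4 | h4
    · exact hcp a hka h4
    · exact hcp (a + 1) (h4 m a hm θ (fun j => (hθ j).1) (fun j => conv (hθ j)) G hG hind) htop

end Pool.Agent.Results.MP_370cf3_ag.ProductsWithCurves
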